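import Pool.Agent.R592.Nj.Ground

/-!
# `add` and `cof` of `𝒩_J` and `𝒩*_J`

We force with the finite partial functions from `C × ω` to `ω`. The index set `C` contains the
indices `c i` for `i ∈ Λ`, where `Λ` has more than `ℵ₂` elements, and `x γ` for `γ < ω₂`. The
generic function at `c i` gives a sequence of clopen sets, and the one at `x γ` gives a sequence
`e γ` of clopen sets and a function `u γ` from `ω` to `ω`.

For a finite set `B` of pairs `(γ, d)`, where `d` is a name of a sequence of clopen sets which
depends only on what is added before the stage `γ`, all natural numbers are good up to the depth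
`0`, and `n` is good up to the depth `r + 1` if for each `(γ, d)` in `B` the number `u γ n` is
good up to the depth `r` and `d (u γ n)` is included in `e γ n`. The ideal `J` is dual to the
filter generated by the sets of the numbers which are good up to some depth for some `B`. If
`{n : x ∈ d n}` belongs to this filter then so does `{n : x ∈ e γ n}`. Therefore the sets
`N*_J(e γ)` are cofinal in `𝒩*_J`, and `add (𝒩*_J) = cof (𝒩*_J) = ℵ₂`. On the other hand, if
`x` does not depend on `c i` then `x` belongs to `N_J(c i)`: one finds good numbers `n` for all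
finitely many possible values of `c i` at `n` which have a certain measure at the same time, and
chooses the value after a sufficiently long initial segment of `x` is decided. So
`cov (𝒩_J) ≤ ℵ₁` and `non (𝒩_J) > ℵ₂`.

The forcing language is that of `Pool.Agent.TH773.PSet.Defs`: a sentence is a set of conditions,
and `p ∈ φ` says that `p` forces `φ`.
-/

set_option autoImplicit false

open Cardinal Pool.Agent.R592.Nj
open Pool.Agent.R592.Sl (Ideal')

namespace Pool.Agent.Results.MP_50671f_lc.AddCof

/-- It is consistent that there is a non-meagre ideal `J` with `add (𝒩_J) < add (𝒩*_J)` and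
`cof (𝒩*_J) < cof (𝒩_J)`.

(1) Some nonempty forcing forces the sentence `Model Y Z`, where `|Y| = ℵ₁` and `|Z| = ℵ₂`.
(2) The meaning of the sentence `Model Y Z` (its value over the trivial forcing) is that there is
an ideal `J` which has the properties collected in `Sep J Y Z`.
(3) They imply that `J` is non-meagre and that
`add (𝒩_J) ≤ |Y| < add (𝒩*_J)` and `cof (𝒩*_J) ≤ |Z| < cof (𝒩_J)`. -/
theorem result :
    (∃ (Y Z P : Type) (_ : Preorder P), #Y = ℵ₁ ∧ #Z = ℵ_ 2 ∧ Nonempty P ∧
      ∀ p : P, p ∈ Model P Y Z) ∧
    (∀ (Y Z : Type) (p : Unit), p ∈ Model Unit Y Z ↔ ∃ J, Sep J Y Z) ∧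
    (∀ (Y Z : Type) (J : Set (Set ℕ)), Sep J Y Z → Ideal' J ∧ NonMeagre J ∧
      addN (calN J) ≤ ((#Y : Cardinal.{0}) : WithTop Cardinal.{0}) ∧
      ((#Y : Cardinal.{0}) : WithTop Cardinal.{0}) < addN (calNS J) ∧
      cofN (calNS J) ≤ ((#Z : Cardinal.{0}) : WithTop Cardinal.{0}) ∧
      ((#Z : Cardinal.{0}) : WithTop Cardinal.{0}) < cofN (calN J)) :=
  ⟨exists_model, fun _ _ _ => unit_model, fun _ _ _ h => h.result⟩

end Pool.Agent.Results.MP_50671f_lc.AddCof
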